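import Pool.Agent.Lib.MP_ab8df0_nt.A.L1.Def

/-! Small primes. -/

namespace Pool.Agent.Lib.MP_ab8df0_nt.A.L1

open Pool.Agent.Lib.MP_ab8df0_nt.A

theorem a0 : CovA gl 6 2448 m 4 ρ 0 (0 + 50) := covA _ _ _ _ _ _ _ _
  [(0, []),
  (0, [⟨[1, 3, 1, 2], 1, 4, [1, 3], [42, -216, 855, -1036, 804, -240, 26, 96, -30, 72, 3, 12]⟩, ⟨[2, 0, 3, 3], 1, 4, [4, 4, 2, 3], [68, -322, 963, -1159, 864, -268, 14, 102, -36, 78, 3, 13]⟩, ⟨[3, 0, 1, 0], 1, 4, [0, 1, 0, 2], [21, 105, -316, 416, -274, 98, 4, -28, 17, -23, 0, -4]⟩]),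
  (0, [⟨[4, 4, 3, 2, 6, 0], 1, 5, [5, 5, 6, 5, 5, 1], []⟩, ⟨[5, 5, 0, 2, 2, 0], 1, 5, [0, 5, 2, 1, 0, 3], []⟩]),
  (0, [⟨[2, 0, 9, 9], 1, 4, [5, 8, 8, 10], []⟩, ⟨[1, 8, 3, 1], 1, 4, [9, 2, 3, 7], []⟩, ⟨[6, 1, 1, 1], 1, 4, [7, 0, 4, 10], []⟩]),
  (0, [⟨[10, 5, 3], 1, 3, [9, 6, 12], [-25, 51, -147, 248, -210, 82, -14, -28, -1, -25, -3, -4]⟩, ⟨[7, 6, 10], 1, 3, [4, 0, 5], [-53, 87, -719, 982, -870, 266, -54, -104, 15, -85, -7, -14]⟩, ⟨[7, 1, 2], 1, 3, [7, 8, 9], [-98, 351, -1184, 1487, -1132, 346, -28, -130, 46, -101, -4, -17]⟩, ⟨[10, 8, 11], 1, 3, [9, 10, 12], [-67, 173, -247, 207, -90, 22, 10, -18, 9, -7, 1, -1]⟩]),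
  (0, [⟨[15, 5, 6, 12], 1, 3, [0, 5, 7, 15], []⟩, ⟨[1, 4, 0, 8], 1, 3, [7, 5, 3], []⟩, ⟨[8, 11, 7, 14], 1, 3, [11, 3, 8, 14], []⟩]),
  (0, [⟨[11, 6, 12, 12, 0, 0], 1, 3, [3, 9, 8, 8, 3, 13], []⟩, ⟨[12, 17, 17, 11, 13, 0], 1, 3, [4, 7, 0, 3, 1, 2], []⟩]),
  (0, [⟨[1, 13, 3, 17], 1, 3, [19, 13, 12], []⟩, ⟨[9, 16, 2, 1], 1, 3, [22, 19, 20, 12], []⟩, ⟨[18, 1, 4, 5], 1, 3, [19, 20, 4, 10], []⟩]),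
  (5, []),
  (0, [⟨[12], 1, 1, [1], [-89, 362, -662, 671, -402, 100, 12, -54, 31, -30, 2, -5]⟩, ⟨[8], 1, 1, [1], [15, -208, 669, -851, 606, -204, -2, 62, -33, 52, 1, 9]⟩, ⟨[13, 20], 1, 2, [8, 5], [-101, 458, -1155, 1280, -886, 252, 6, -100, 55, -70, 1, -12]⟩, ⟨[13, 26], 1, 2, [28, 9], [-133, 615, -1570, 1762, -1266, 354, -20, -160, 59, -109, -2, -18]⟩, ⟨[8, 12], 1, 2, [6, 28], [-89, 272, -1047, 1339, -1070, 336, -46, -134, 27, -104, -7, -17]⟩, ⟨[4, 16], 1, 2, [12, 13], [2, 24, 275, -402, 380, -108, 30, 44, -6, 36, 3, 6]⟩, ⟨[3, 22], 1, 2, [17, 9], [77, -401, 1100, -1307, 926, -278, -4, 98, -55, 75, 0, 13]⟩]),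
  (0, [⟨[11], 1, 1, [1], [28, -112, 85, 6, -68, 44, -14, -4, -8, -12, -3, -2]⟩, ⟨[19], 1, 1, [1], [-82, 406, -1238, 1492, -1108, 328, -16, -124, 54, -94, -2, -16]⟩, ⟨[15], 1, 1, [1], [51, -228, 301, -212, 66, -4, -22, 12, -17, 0, -3]⟩, ⟨[23], 1, 1, [1], [87, -331, 654, -647, 398, -110, -20, 46, -33, 29, -2, 5]⟩, ⟨[19, 27], 1, 2, [4, 2], [29, -225, 732, -883, 638, -198, -4, 62, -39, 51, 0, 9]⟩, ⟨[29, 12], 1, 2, [1, 5], [92, -214, 510, -526, 392, -112, 8, 56, -12, 38, 2, 6]⟩, ⟨[16, 14], 1, 2, [27, 5], [55, -42, -153, 320, -254, 96, -10, -20, 11, -22, -1, -4]⟩, ⟨[13, 3], 1, 2, [28, 2], [55, -191, 96, 57, -126, 54, -36, -18, -13, -19, -4, -3]⟩]),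
  (5, []),
  (0, [⟨[13, 3, 33], 1, 3, [17, 11, 35], []⟩, ⟨[4, 0, 36], 1, 3, [26, 12, 8], []⟩, ⟨[32, 26, 1], 1, 3, [27, 34, 9], []⟩, ⟨[1, 22, 4], 1, 3, [19, 13, 21], []⟩]),
  (0, [⟨[40], 1, 1, [1], [16, 16]⟩, ⟨[17], 1, 1, [1], [32, -215, 438, -429, 264, -62, -12, 30, -24, 17, -2, 3]⟩, ⟨[22, 27], 1, 2, [32, 28], [-13, 225, -716, 883, -638, 198, 4, -62, 39, -51, 0, -9]⟩, ⟨[12, 29], 1, 2, [23, 38], [68, -538, 1511, -1763, 1240, -360, -2, 134, -76, 98, -1, 17]⟩, ⟨[10, 37], 1, 2, [38, 19], [15, -25, 302, -478, 378, -126, 16, 40, -13, 35, 2, 6]⟩, ⟨[12, 16], 1, 2, [13, 24], [-78, 230, -211, 94, 32, -36, 34, 8, 22, 14, 5, 2]⟩, ⟨[18, 39], 1, 2, [14, 14], [-66, 152, -659, 826, -668, 188, -30, -80, 22, -60, -3, -10]⟩]),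
  (0, [⟨[14], 1, 1, [1], [19, -52, -83, 212, -222, 76, -22, -24, -1, -24, -3, -4]⟩, ⟨[13], 1, 1, [1], [-30, -20, 196, -277, 204, -76, -4, 14, -14, 16, 0, 3]⟩, ⟨[37], 1, 1, [1], [-50, 230, -854, 1068, -820, 248, -16, -88, 38, -70, -2, -12]⟩, ⟨[38], 1, 1, [1], [-13, -31, 137, -150, 130, -34, 10, 20, -1, 13, 1, 2]⟩, ⟨[39, 8], 1, 2, [36, 34], [-67, 205, -554, 621, -450, 146, -4, -58, 17, -43, -2, -7]⟩, ⟨[11, 2], 1, 2, [9, 34], [-41, -18, 442, -652, 530, -172, 20, 52, -21, 46, 2, 8]⟩, ⟨[37, 40], 1, 2, [26, 3], [76, -272, 469, -418, 220, -36, -14, 32, -24, 12, -3, 2]⟩, ⟨[36, 20], 1, 2, [13, 3], [52, -80, 299, -430, 356, -124, 14, 40, -8, 36, 3, 6]⟩]),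
  (0, [⟨[27, 44, 17, 41], 1, 3, [33, 37, 20, 46], []⟩, ⟨[7, 14, 19, 42], 1, 3, [34, 1, 24, 37], []⟩, ⟨[1, 7, 8, 11], 1, 3, [5, 3, 8], []⟩]),
  (7, [])] (by decide +kernel)

theorem ra {F : Type*} [Field F] [NumberField F] {α : NumberField.RingOfIntegers F} (h : Gen α gl) :
    Range F 6 2448 0 50 :=
  have hs : splitOK gl m 4 ρ = true := by decide +kernel
  a0.range h hs


end Pool.Agent.Lib.MP_ab8df0_nt.A.L1
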