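import Pool.Agent.Lib.MP_ab8df0_nt.A.L1.Main

/-! The same in terms of a generator whose index has only bad primes. -/

namespace Pool.Agent.Lib.MP_ab8df0_nt.A.L1.G

open Pool.Agent.Lib.MP_ab8df0_nt.A

open NumberField IsDedekindDomain

variable {F : Type*} [Field F] [NumberField F] {α : 𝓞 F}

/-- Lower coefficients of the polynomial. -/
def fl : List ℤ := [-1, 12, -42, 96, -105, 72, -20, 0, 9, -4, 6, 0]

instance : Fact (Irreducible (mq fl)) :=
  ⟨irr_of_other (fl := L1.fl) (l := [44819, -54830, 182390, -179175, 90720, 75084, -193231, 210241, -126880, 26770, 5801, -2345]) (d := 17397)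
    (l' := [-49, 183, -341, 305, -214, 42, -14, -42, 3, -21, -1, -3]) (d' := 32) Fact.out (by decide +kernel)⟩

/-- The uniformizer at two is `ul / ud`. -/
def ul : List ℤ := [-49, 183, -341, 305, -214, 42, -14, -42, 3, -21, -1, -3]

/-- Denominator of the uniformizer. -/
def ud : ℤ := 32

/-- The generator is `vl / vd` in terms of the uniformizer. -/
def vl : List ℤ := [44819, -54830, 182390, -179175, 90720, 75084, -193231, 210241, -126880, 26770, 5801, -2345]

/-- Denominator of the generator. -/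
def vd : ℤ := 17397

theorem unif (h : Gen α fl) : ∃ γ : 𝓞 F, ud * γ = ev α ul ∧ Gen γ L1.fl :=
  h.other (l' := vl) (d' := vd) (by decide +kernel)

/-- The generators. -/
def g : Fin 10 → List ℤ := L1.g0

theorem SU (h : Gen α fl) {ξ : F} (h0 : ξ ≠ 0)
    (hξ : ∀ v : HeightOneSpectrum (𝓞 F), ((6 : ℕ) : 𝓞 F) ∉ v.asIdeal →
      ∃ k : ℤ, v.valuation F ξ = WithZero.exp (2 * k)) :
    ∃ (e : Fin 10 → Bool) (u : F), ξ = (∏ i, if e i then ev (α : F) (g i) else 1) * u ^ 2 :=
  L1.SU0 h h0 hξ

theorem re0 (h : Gen α fl) : ∃ φ : F →+* ℝ, ((-1710937234956839042379595303291 : ℤ) : ℝ) / ((10 ^ 30 : ℕ) : ℝ) < φ α ∧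
    φ α < ((-1710937234956839042379595303290 : ℤ) : ℝ) / ((10 ^ 30 : ℕ) : ℝ) := h.real (by decide +kernel)

theorem re1 (h : Gen α fl) : ∃ φ : F →+* ℝ, ((123536182988639567627889664018 : ℤ) : ℝ) / ((10 ^ 30 : ℕ) : ℝ) < φ α ∧
    φ α < ((123536182988639567627889664019 : ℤ) : ℝ) / ((10 ^ 30 : ℕ) : ℝ) := h.real (by decide +kernel)

/-- The common denominator. -/
def den : ℤ := 16

/-- Numerator of a tower element. -/
def th : List ℤ := [34, -177, 611, -759, 584, -178, 22, 74, -18, 55, 3, 9]

/-- Numerator of a tower element. -/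
def rho : List ℤ := [186, -744, 2007, -2308, 1668, -480, 26, 204, -78, 144, 3, 24]

/-- Numerator of a tower element. -/
def sig : List ℤ := [91, -310, 866, -1009, 746, -220, 12, 90, -33, 66, 2, 11]

theorem tw0 {K : Type*} [Field K] [CharZero K] {a : K} (h : a ^ fl.length + ev a fl = 0) :
    (ev a th / den) ^ 3 = 2 := by
  have := ex_zero_div h (D := den) (ls := [th, rho, sig])
    (e := (.add (.pow (.v 0) 3) (.neg (.c 2)))) (by decide +kernel)
  simp only [List.map, Ex.evR, Ex.evR_pow, nth0] at this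
  push_cast at this
  linear_combination this

theorem tw1 {K : Type*} [Field K] [CharZero K] {a : K} (h : a ^ fl.length + ev a fl = 0) :
    ((ev a rho / den) ^ 2 * ((ev a th / den) - 1) ^ 3) = 1 := by
  have := ex_zero_div h (D := den) (ls := [th, rho, sig])
    (e := (.add (.mul (.pow (.v 1) 2) (.pow (.add (.v 0) (.neg (.c 1))) 3)) (.neg (.c 1)))) (by decide +kernel)
  simp only [List.map, Ex.evR, Ex.evR_pow, nth0, nth1] at this
  push_cast at this
  linear_combination this

theorem tw2 {K : Type*} [Field K] [CharZero K] {a : K} (h : a ^ fl.length + ev a fl = 0) :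
    (ev a sig / den) ^ 2 = (1 + (2 * (ev a rho / den))) := by
  have := ex_zero_div h (D := den) (ls := [th, rho, sig])
    (e := (.add (.pow (.v 2) 2) (.neg (.add (.c 1) (.mul (.c 2) (.v 1)))))) (by decide +kernel)
  simp only [List.map, Ex.evR, Ex.evR_pow, nth1, nth2] at this
  push_cast at this
  linear_combination this

end Pool.Agent.Lib.MP_ab8df0_nt.A.L1.G
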